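import Pool.Agent.P.MP_4d6a7f_co.GEAll

namespace Pool.Agent.Results.MP_4d6a7f_co.Classification

open Pool.Agent.P.MP_4d6a7f_co

universe u

/-- The graphs isomorphic to their line graphs, up to isomorphism, correspond to the data up to
germ equivalence. -/
theorem result :
    (∀ {V : Type u} (G : SimpleGraph V), Nonempty (G ≃g G.lineGraph) ↔
      ∃ (X : Type u) (D : Datum X), Nonempty (G ≃g lim D.c)) ∧
    ∀ {X X' : Type u} (D : Datum X) (D' : Datum X'), Nonempty (lim D.c ≃g lim D'.c) ↔
      Germ (fun x => s(D.s x, D.t x)) fun x => s(D'.s x, D'.t x) :=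
  ⟨datum_exists, fun D D' => lim_iso_iff D.c D'.c⟩

end Pool.Agent.Results.MP_4d6a7f_co.Classification
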