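import Pool.Agent.P.MP_4d6a7f_co.FDUniq

namespace Pool.Agent.Results.MP_4d6a7f_co.FiniteDegree

open Pool.Agent.P.MP_4d6a7f_co

universe u

/-- The connected graphs with vertices of finite and of infinite degree that are isomorphic to
their line graphs are exactly the limits of the iterated line graphs of comets, and two such
limits are isomorphic exactly when the comets are. -/
theorem result :
    (∀ {V : Type u} (G : SimpleGraph V),
      (G.Connected ∧ (∃ v, (G.neighborSet v).Finite) ∧ (∃ v, (G.neighborSet v).Infinite) ∧
        Nonempty (G ≃g G.lineGraph)) ↔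
      ∃ (X : Type u) (C : Comet X), Nonempty (G ≃g lim C.c)) ∧
    ∀ {X X' : Type u} (C : Comet X) (C' : Comet X'),
      Nonempty (lim C.c ≃g lim C'.c) ↔ ∃ e : X ≃ X', ∀ x, e (C.t x) = C'.t (e x) :=
  ⟨comet_exists, comet_unique⟩

end Pool.Agent.Results.MP_4d6a7f_co.FiniteDegree
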